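import Pool.Agent.H62.LP.Main

/-!
# The Littlewood exponent of direct powers

If the direct power `Γⁿ` is a quotient of a subgroup of `G`, then
`⌈n/2⌉ (Lit Γ - 1) ≤ Lit G - 1`.
-/

open scoped ENNReal

open Pool.Agent.H62.LP

namespace Pool.Agent.Results.MP_60ff71_an.DirectPowers

/-- Let `Γ` and `G` be groups such that the direct power `Γⁿ` is a quotient of a subgroup `H` of
`G`. Then `⌈n/2⌉ (Lit Γ - 1) ≤ Lit G - 1` (with truncated subtraction). -/
theorem result.{u, v} (Γ : Type u) (G : Type v) [Group Γ] [Group G] (n : ℕ) (H : Subgroup G)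
    (φ : H →* (Fin n → Γ)) (hφ : Function.Surjective φ) :
    (((n + 1) / 2 : ℕ) : ℝ≥0∞) * (Lit Γ - 1) ≤ Lit G - 1 :=
  main n H φ hφ

end Pool.Agent.Results.MP_60ff71_an.DirectPowers
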