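import Pool.Agent.H74.BTL.Asm

/-!
# Groups with finite Littlewood exponent have no harmonic functions of finite energy

Every finitely generated subgroup of a group with finite Littlewood exponent has vanishing first
`ℓ²`-Betti number.
-/

open scoped ENNReal

open Pool.Agent.H62.LP

namespace Pool.Agent.Results.MP_60ff71_an.FirstBettiNumber

/-- Let `Γ` be a group with `Lit Γ < ∞`, let `S` be a finite symmetric subset of `Γ`, and let
`h : Γ → ℝ` be harmonic with respect to `S` and of finite Dirichlet energy. Then `h (x s) = h x`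
for all `x ∈ Γ` and `s ∈ S`, that is, `h` is constant on the left cosets of the subgroup
generated by `S`. -/
theorem result.{u} (Γ : Type u) [Group Γ] (hΓ : Lit Γ < ∞) (S : Finset Γ)
    (hS : ∀ s ∈ S, s⁻¹ ∈ S) (h : Γ → ℝ)
    (hfin : Summable fun p : Γ × S => (h (p.1 * p.2) - h p.1) ^ 2)
    (hharm : ∀ x, ∑ s ∈ S, (h (x * s) - h x) = 0) :
    ∀ x, ∀ s ∈ S, h (x * s) = h x :=
  Pool.Agent.H74.BTL.a_MAIN Γ hΓ S hS h hfin hharm

end Pool.Agent.Results.MP_60ff71_an.FirstBettiNumber
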