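import Pool.Agent.H62.LP.Fill

/-!
# The Littlewood exponents of the direct powers of a group leave no large gaps

If `Lit Γ > 1` and `1 ≤ a < b ≤ ∞` satisfy `1/a - 1/b > 1 - 1/Lit Γ`, then some direct power `Γⁿ`
has `a < Lit (Γⁿ) < b`.
-/

open scoped ENNReal

open Pool.Agent.H62.LP

namespace Pool.Agent.Results.MP_60ff71_an.ForbiddenRanges

/-- Let `Γ` be a group with `Lit Γ > 1` and let `1 ≤ a ≤ b ≤ ∞` be such that
`1/a - 1/b > 1 - 1/Lit Γ`. Then `a < Lit (Γⁿ) < b` for some `n`. -/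
theorem result.{u} (Γ : Type u) [Group Γ] (a b : ℝ≥0∞) (ha : 1 ≤ a) (h1 : 1 < Lit Γ)
    (hab : 1 - (Lit Γ)⁻¹ < a⁻¹ - b⁻¹) :
    ∃ n : ℕ, a < Lit (Fin n → Γ) ∧ Lit (Fin n → Γ) < b :=
  fill ha h1 hab

end Pool.Agent.Results.MP_60ff71_an.ForbiddenRanges
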