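import Pool.Agent.H62.LP.Inv

/-!
# Invariant measures for groups with finite Littlewood exponent
-/

open scoped ENNReal

open MeasureTheory Pool.Agent.H62.LP

namespace Pool.Agent.Results.MP_60ff71_an.InvariantMeasures

/-- Let `Γ` be a group with `Lit Γ < ∞` which acts by Lipschitz maps on a nonempty compact metric
space `X` such that for every `a > 0` there are arbitrarily small `ε > 0` for which `X` has a
finite `ε`-net with at most `exp (ε ^ (-a))` points (for instance, a space of finite box
dimension). Then there is a `Γ`-invariant Borel probability measure on `X`. -/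
theorem result.{u, v} (Γ : Type u) (X : Type v) [Group Γ] [MetricSpace X] [CompactSpace X]
    [Nonempty X] [MeasurableSpace X] [BorelSpace X] [MulAction Γ X] (hΓ : Lit Γ < ∞)
    (hLip : ∀ g : Γ, ∃ K : ℝ, ∀ x y : X, dist (g • x) (g • y) ≤ K * dist x y)
    (hdim : ∀ a : ℝ, 0 < a → ∀ δ : ℝ, 0 < δ → ∃ ε : ℝ, 0 < ε ∧ ε < δ ∧ ∃ t : Finset X,
      (∀ x, ∃ y ∈ t, dist x y ≤ ε) ∧ Real.log t.card ≤ ε ^ (-a)) :
    ∃ μ : Measure X, IsProbabilityMeasure μ ∧ ∀ g : Γ, μ.map (fun x => g • x) = μ :=
  inv_main hΓ hLip hdim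

end Pool.Agent.Results.MP_60ff71_an.InvariantMeasures
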